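import Mathlib
import Pool.Agent.H770R2.Kad.Props

open scoped ComplexOrder InnerProductSpace

noncomputable section

namespace H770R2.Kad

open H759R2.Kad

universe u v

/-- positive functionals -/
structure PurePF {C : Type u} [CStarAlgebra C] (f : C → ℂ) : Prop where
  add : ∀ a b, f (a + b) = f a + f b
  smul : ∀ (c : ℂ) a, f (c • a) = c * f a
  re : ∀ a, 0 ≤ (f (star a * a)).re
  im : ∀ a, (f (star a * a)).im = 0

namespace PurePF

variable {C : Type u} [CStarAlgebra C] {f : C → ℂ}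

theorem one_im (h : PurePF f) : (f 1).im = 0 := by
  have := h.im 1
  simpa using this

theorem one_re (h : PurePF f) : 0 ≤ (f 1).re := by
  have := h.re 1
  simpa using this

theorem expand (h : PurePF f) (c : ℂ) (a : C) :
    f (star (a + c • (1 : C)) * (a + c • (1 : C))) =
      f (star a * a) + c * f (star a) + star c * f a + (star c * c) * f 1 := by
  have h1 : star (a + c • (1 : C)) * (a + c • (1 : C)) =
      star a * a + c • star a + star c • a + (star c * c) • (1 : C) := by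
    rw [star_add, star_smul, star_one, add_mul, mul_add, mul_add, mul_smul_comm, mul_one,
      smul_mul_assoc, one_mul, smul_mul_smul_comm, one_mul]
    abel
  rw [h1, h.add, h.add, h.add, h.smul, h.smul, h.smul]

theorem herm (h : PurePF f) (a : C) : f (star a) = star (f a) := by
  have h1 := h.im (a + (1 : ℂ) • (1 : C))
  have h2 := h.im (a + Complex.I • (1 : C))
  rw [h.expand] at h1 h2
  have h3 := h.im a
  have h4 := h.one_im
  simp [h3, h4] at h1 h2
  apply Complex.ext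
  · simp
    linarith
  · simp
    linarith

theorem cs (h : PurePF f) (a : C) : ‖f a‖ ^ 2 ≤ (f 1).re * (f (star a * a)).re := by
  have hn : ‖f a‖ ^ 2 = (f a).re ^ 2 + (f a).im ^ 2 := by
    rw [← Complex.normSq_eq_norm_sq, Complex.normSq_apply]; ring
  have h1 : ∀ t : ℝ, 0 ≤ (‖f a‖ ^ 2 * (f 1).re) * (t * t) + (2 * ‖f a‖ ^ 2) * t +
      (f (star a * a)).re := by
    intro t
    have h2 := h.re (a + ((t : ℂ) * f a) • (1 : C))
    rw [h.expand, h.herm] at h2
    have h3 : (f (star a * a) + (t : ℂ) * f a * star (f a) + star ((t : ℂ) * f a) * f a +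
        star ((t : ℂ) * f a) * ((t : ℂ) * f a) * f 1).re =
        (‖f a‖ ^ 2 * (f 1).re) * (t * t) + (2 * ‖f a‖ ^ 2) * t + (f (star a * a)).re := by
      rw [hn]
      simp
      rw [h.one_im]
      ring
    rwa [h3] at h2
  have h4 := discrim_le_zero h1
  unfold discrim at h4
  have h5 : 0 ≤ (f 1).re * (f (star a * a)).re := mul_nonneg h.one_re (h.re a)
  by_cases h0 : ‖f a‖ ^ 2 = 0
  · rw [h0]; exact h5
  · have h6 : 0 < ‖f a‖ ^ 2 := lt_of_le_of_ne (sq_nonneg _) (Ne.symm h0)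
    have h7 : ‖f a‖ ^ 2 * ‖f a‖ ^ 2 ≤ ((f 1).re * (f (star a * a)).re) * ‖f a‖ ^ 2 := by
      nlinarith
    exact le_of_mul_le_mul_right h7 h6

theorem dec (a : C) (ha : IsSelfAdjoint a) :
    ∃ c : C, ((‖a‖ : ℝ) : ℂ) • (1 : C) - a = star c * c := by
  let := CStarAlgebra.spectralOrder C
  have := CStarAlgebra.spectralOrderedRing C
  have h1 : a ≤ (algebraMap ℝ C) ‖a‖ := IsSelfAdjoint.le_algebraMap_norm_self ha
  have h2 := CStarAlgebra.nonneg_iff_eq_star_mul_self.mp (sub_nonneg.mpr h1)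
  obtain ⟨c, hc⟩ := h2
  refine ⟨c, ?_⟩
  rw [← hc, Algebra.algebraMap_eq_smul_one]
  congr 1

theorem dec' (a : C) (ha : IsSelfAdjoint a) :
    ∃ c : C, ((‖a‖ : ℝ) : ℂ) • (1 : C) + a = star c * c := by
  obtain ⟨c, hc⟩ := dec (-a) ha.neg
  refine ⟨c, ?_⟩
  rw [← hc, norm_neg, sub_neg_eq_add]

theorem le (h : PurePF f) (a : C) : (f (star a * a)).re ≤ ‖a‖ ^ 2 * (f 1).re := by
  obtain ⟨c, hc⟩ := dec (star a * a) (IsSelfAdjoint.star_mul_self a)
  have h1 := h.re c
  rw [← hc, sub_eq_add_neg, ← neg_one_smul ℂ (star a * a), h.add, h.smul, h.smul,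
    CStarRing.norm_star_mul_self] at h1
  simp at h1
  nlinarith

theorem norm_le (h : PurePF f) (h1 : f 1 = 1) (a : C) : ‖f a‖ ≤ ‖a‖ := by
  have h2 := h.cs a
  have h3 := h.le a
  rw [h1] at h2 h3
  simp only [Complex.one_re, one_mul, mul_one] at h2 h3
  exact le_of_sq_le_sq (h2.trans h3) (norm_nonneg _)

theorem mulz (h : PurePF f) {z c : C} (hz : ∀ a, z * a = a * z) (hc : z = star c * c) :
    PurePF (fun a => f (z * a)) := by
  have h1 : ∀ a, z * (star a * a) = star (c * a) * (c * a) := by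
    intro a
    rw [← mul_assoc, hz (star a), hc, star_mul]
    simp only [mul_assoc]
  refine ⟨?_, ?_, ?_, ?_⟩
  · intro a b
    simp only [mul_add, h.add]
  · intro c' a
    simp only [mul_smul_comm, h.smul]
  · intro a
    simp only [h1]
    exact h.re _
  · intro a
    simp only [h1]
    exact h.im _

theorem scale (h : PurePF f) {r : ℝ} (hr : 0 ≤ r) : PurePF (fun a => (r : ℂ) * f a) := by
  refine ⟨?_, ?_, ?_, ?_⟩
  · intro a b
    simp only [h.add, mul_add]
  · intro c a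
    simp only [h.smul]
    ring
  · intro a
    simp only [Complex.re_ofReal_mul]
    exact mul_nonneg hr (h.re a)
  · intro a
    simp only [Complex.im_ofReal_mul, h.im a, mul_zero]

end PurePF

/-- the set of states with the value `w` at `star Y * Y` -/
def pureS {C : Type u} [CStarAlgebra C] (Y : C) (w : ℝ) : Set (C → ℂ) :=
  {f | PurePF f ∧ f 1 = 1 ∧ (∀ a, ‖f a‖ ≤ ‖a‖) ∧ w ≤ (f (star Y * Y)).re}

theorem pure_closed {C : Type u} [CStarAlgebra C] (Y : C) (w : ℝ) : IsClosed (pureS Y w) := by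
  have h : pureS Y w = {f : C → ℂ | ∀ a b, f (a + b) = f a + f b} ∩
      {f : C → ℂ | ∀ (c : ℂ) a, f (c • a) = c * f a} ∩
      {f : C → ℂ | ∀ a, 0 ≤ (f (star a * a)).re} ∩ {f : C → ℂ | ∀ a, (f (star a * a)).im = 0} ∩
      {f : C → ℂ | f 1 = 1} ∩ {f : C → ℂ | ∀ a, ‖f a‖ ≤ ‖a‖} ∩
      {f : C → ℂ | w ≤ (f (star Y * Y)).re} := by
    ext f
    constructor
    · rintro ⟨⟨h1, h2, h3, h4⟩, h5, h6, h7⟩
      exact ⟨⟨⟨⟨⟨⟨h1, h2⟩, h3⟩, h4⟩, h5⟩, h6⟩, h7⟩
    · rintro ⟨⟨⟨⟨⟨⟨h1, h2⟩, h3⟩, h4⟩, h5⟩, h6⟩, h7⟩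
      exact ⟨⟨h1, h2, h3, h4⟩, h5, h6, h7⟩
  rw [h]
  have hev : ∀ a : C, Continuous (fun f : C → ℂ => f a) := fun a => continuous_apply a
  refine IsClosed.inter (IsClosed.inter (IsClosed.inter (IsClosed.inter (IsClosed.inter
    (IsClosed.inter ?_ ?_) ?_) ?_) ?_) ?_) ?_
  · simp only [Set.ofPred_forall]
    exact isClosed_iInter fun a => isClosed_iInter fun b =>
      isClosed_eq (hev _) ((hev a).add (hev b))
  · simp only [Set.ofPred_forall]
    exact isClosed_iInter fun c => isClosed_iInter fun a =>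
      isClosed_eq (hev _) (continuous_const.mul (hev a))
  · simp only [Set.ofPred_forall]
    exact isClosed_iInter fun a =>
      isClosed_le continuous_const (Complex.continuous_re.comp (hev _))
  · simp only [Set.ofPred_forall]
    exact isClosed_iInter fun a =>
      isClosed_eq (Complex.continuous_im.comp (hev _)) continuous_const
  · exact isClosed_eq (hev _) continuous_const
  · simp only [Set.ofPred_forall]
    exact isClosed_iInter fun a => isClosed_le (hev a).norm continuous_const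
  · exact isClosed_le continuous_const (Complex.continuous_re.comp (hev _))

theorem pure_compact {C : Type u} [CStarAlgebra C] (Y : C) (w : ℝ) : IsCompact (pureS Y w) := by
  have h1 : IsCompact (Set.pi Set.univ (fun a : C => Metric.closedBall (0 : ℂ) ‖a‖)) :=
    isCompact_univ_pi fun a => isCompact_closedBall _ _
  refine h1.of_isClosed_subset (pure_closed Y w) ?_
  intro f hf a _
  rw [mem_closedBall_zero_iff]
  exact hf.2.2.1 a

theorem pure_vec {C : Type u} [CStarAlgebra C] {E : Type v} [NormedAddCommGroup E]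
    [InnerProductSpace ℂ E] [CompleteSpace E] (j : C →⋆ₐ[ℂ] (E →L[ℂ] E))
    (Y : C) (x : E) (hx : ‖x‖ = 1) : (fun a => ⟪x, j a x⟫_ℂ) ∈ pureS Y (‖j Y x‖ ^ 2) := by
  have h1 : ∀ a : C, ⟪x, j (star a * a) x⟫_ℂ = ((‖j a x‖ ^ 2 : ℝ) : ℂ) := by
    intro a
    rw [map_mul, map_star, ContinuousLinearMap.star_eq_adjoint,
      show ((ContinuousLinearMap.adjoint (j a)) * j a) x =
        (ContinuousLinearMap.adjoint (j a)) (j a x) from rfl,
      ContinuousLinearMap.adjoint_inner_right, inner_self_eq_norm_sq_to_K]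
    simp
  refine ⟨⟨?_, ?_, ?_, ?_⟩, ?_, ?_, ?_⟩
  · intro a b
    show ⟪x, j (a + b) x⟫_ℂ = _
    rw [map_add, ContinuousLinearMap.add_apply, inner_add_right]
  · intro c a
    show ⟪x, j (c • a) x⟫_ℂ = _
    rw [map_smul, ContinuousLinearMap.smul_apply, inner_smul_right]
  · intro a
    show 0 ≤ (⟪x, j (star a * a) x⟫_ℂ).re
    rw [h1, Complex.ofReal_re]
    positivity
  · intro a
    show (⟪x, j (star a * a) x⟫_ℂ).im = 0
    rw [h1, Complex.ofReal_im]
  · show ⟪x, j 1 x⟫_ℂ = 1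
    rw [map_one]
    show ⟪x, x⟫_ℂ = 1
    rw [inner_self_eq_norm_sq_to_K, hx]
    simp
  · intro a
    show ‖⟪x, j a x⟫_ℂ‖ ≤ ‖a‖
    refine (norm_inner_le_norm _ _).trans ?_
    rw [hx, one_mul]
    refine ((j a).le_opNorm x).trans ?_
    rw [hx, mul_one]
    exact NonUnitalStarAlgHom.norm_apply_le j a
  · show ‖j Y x‖ ^ 2 ≤ (⟪x, j (star Y * Y) x⟫_ℂ).re
    rw [h1, Complex.ofReal_re]

theorem pure_nonempty {C : Type u} [CStarAlgebra C] {E : Type v} [NormedAddCommGroup E]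
    [InnerProductSpace ℂ E] [CompleteSpace E] (j : C →⋆ₐ[ℂ] (E →L[ℂ] E))
    (hj : Function.Injective j) (Y : C) (hY : Y ≠ 0) : (pureS Y (‖Y‖ ^ 2)).Nonempty := by
  have hn : ‖j Y‖ = ‖Y‖ := NonUnitalStarAlgHom.norm_map j hj Y
  have hY0 : 0 < ‖Y‖ := norm_pos_iff.mpr hY
  have h1 : ∀ n : ℕ, (pureS Y (‖Y‖ ^ 2 - 1 / ((n : ℝ) + 1))).Nonempty := by
    intro n
    have hn1 : (0:ℝ) < 1 / ((n : ℝ) + 1) := by positivity
    set r : ℝ := √(max 0 (‖Y‖ ^ 2 - 1 / ((n : ℝ) + 1))) with hr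
    have hr2 : r ^ 2 = max 0 (‖Y‖ ^ 2 - 1 / ((n : ℝ) + 1)) := Real.sq_sqrt (le_max_left _ _)
    have hr0 : 0 ≤ r := Real.sqrt_nonneg _
    have hrlt : r < ‖j Y‖ := by
      rw [hn]
      refine lt_of_pow_lt_pow_left₀ 2 hY0.le ?_
      rw [hr2]
      refine max_lt (by positivity) (by linarith)
    have h2 : ∃ x, r * ‖x‖ < ‖j Y x‖ := by
      by_contra hcon
      push Not at hcon
      exact absurd ((j Y).opNorm_le_bound hr0 hcon) (not_le.mpr hrlt)
    obtain ⟨x, hx⟩ := h2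
    have hx0 : x ≠ 0 := by
      rintro rfl
      simp at hx
    have hxn : 0 < ‖x‖ := norm_pos_iff.mpr hx0
    set y : E := ((‖x‖⁻¹ : ℝ) : ℂ) • x with hy
    have hy1 : ‖y‖ = 1 := by
      rw [hy, norm_smul, Complex.norm_real, Real.norm_eq_abs, abs_of_pos (inv_pos.mpr hxn)]
      exact inv_mul_cancel₀ hxn.ne'
    have hy2 : r ≤ ‖j Y y‖ := by
      rw [hy, map_smul, norm_smul, Complex.norm_real, Real.norm_eq_abs,
        abs_of_pos (inv_pos.mpr hxn), inv_mul_eq_div, le_div_iff₀ hxn]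
      exact hx.le
    have h3 := pure_vec j Y y hy1
    refine ⟨_, h3.1, h3.2.1, h3.2.2.1, le_trans ?_ h3.2.2.2⟩
    calc ‖Y‖ ^ 2 - 1 / ((n : ℝ) + 1) ≤ max 0 (‖Y‖ ^ 2 - 1 / ((n : ℝ) + 1)) := le_max_right _ _
      _ = r ^ 2 := hr2.symm
      _ ≤ ‖j Y y‖ ^ 2 := pow_le_pow_left₀ hr0 hy2 2
  obtain ⟨f, hf⟩ := IsCompact.nonempty_iInter_of_sequence_nonempty_isCompact_isClosed
    (fun n : ℕ => pureS Y (‖Y‖ ^ 2 - 1 / ((n : ℝ) + 1))) (by
      intro n f hf
      refine ⟨hf.1, hf.2.1, hf.2.2.1, le_trans ?_ hf.2.2.2⟩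
      have h4 : 1 / (((n + 1 : ℕ) : ℝ) + 1) ≤ 1 / ((n : ℝ) + 1) := by
        apply one_div_le_one_div_of_le (by positivity)
        push_cast
        linarith
      linarith) h1 (pure_compact _ _) (fun n => pure_closed _ _)
  rw [Set.mem_iInter] at hf
  refine ⟨f, (hf 0).1, (hf 0).2.1, (hf 0).2.2.1, ?_⟩
  have h5 : Filter.Tendsto (fun n : ℕ => ‖Y‖ ^ 2 - 1 / ((n : ℝ) + 1)) Filter.atTop
      (nhds (‖Y‖ ^ 2 - 0)) :=
    tendsto_const_nhds.sub tendsto_one_div_add_atTop_nhds_zero_nat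
  rw [sub_zero] at h5
  exact le_of_tendsto' h5 fun n => (hf n).2.2.2

theorem pure_val {C : Type u} [CStarAlgebra C] {Y : C} {f : C → ℂ} (h : PurePF f)
    (h1 : f 1 = 1) : (f (star Y * Y)).re ≤ ‖Y‖ ^ 2 := by
  have h2 := h.le Y
  rw [h1] at h2
  simpa using h2

/-- the main step -/
theorem pure_step {C : Type u} [CStarAlgebra C] {Y : C} {φ : C → ℂ}
    (hφ : φ ∈ Set.extremePoints ℝ (pureS Y (‖Y‖ ^ 2))) {z c d : C} (hz : ∀ a, z * a = a * z)
    (hc : z = star c * c) (hd : 1 - z = star d * d) (a : C) : φ (z * a) = φ z * φ a := by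
  rw [mem_extremePoints] at hφ
  obtain ⟨⟨hP, h1, hn, hw⟩, hext⟩ := hφ
  have hz' : ∀ a, (1 - z) * a = a * (1 - z) := by
    intro a
    rw [sub_mul, mul_sub, one_mul, mul_one, hz]
  have P1 := hP.mulz hz hc
  have P2 := hP.mulz hz' hd
  have hsum : ∀ a, φ (z * a) + φ ((1 - z) * a) = φ a := by
    intro a
    rw [← hP.add, ← add_mul, add_sub_cancel, one_mul]
  set t : ℝ := (φ z).re with ht
  have hzim : (φ z).im = 0 := by
    have := P1.one_im
    simpa using this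
  have hzt : φ z = (t : ℂ) := by
    apply Complex.ext
    · simp [ht]
    · simp [hzim]
  have ht0 : 0 ≤ t := by
    have := P1.one_re
    simpa using this
  have h1z : φ (1 - z) = ((1 - t : ℝ) : ℂ) := by
    have := hsum 1
    rw [mul_one, mul_one, h1, hzt] at this
    push_cast
    rw [← this]
    ring
  have ht1 : 0 ≤ 1 - t := by
    have := P2.one_re
    simp only [mul_one] at this
    rw [h1z, Complex.ofReal_re] at this
    exact this
  by_cases h0 : t = 0
  · have h2 := P1.cs a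
    simp only [mul_one] at h2
    rw [hzt, h0, Complex.ofReal_re, zero_mul] at h2
    have h3 : ‖φ (z * a)‖ = 0 := by
      have := sq_nonneg ‖φ (z * a)‖
      exact pow_eq_zero_iff two_ne_zero |>.mp (le_antisymm h2 this)
    rw [norm_eq_zero] at h3
    rw [h3, hzt, h0]
    simp
  by_cases h0' : 1 - t = 0
  · have h2 := P2.cs a
    simp only [mul_one] at h2
    rw [h1z, h0', Complex.ofReal_re, zero_mul] at h2
    have h3 : ‖φ ((1 - z) * a)‖ = 0 := by
      have := sq_nonneg ‖φ ((1 - z) * a)‖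
      exact pow_eq_zero_iff two_ne_zero |>.mp (le_antisymm h2 this)
    rw [norm_eq_zero] at h3
    have h4 := hsum a
    rw [h3, add_zero] at h4
    have h5 : t = 1 := by linarith
    rw [h4, hzt, h5]
    simp
  have ht0' : 0 < t := lt_of_le_of_ne ht0 (Ne.symm h0)
  have ht1' : 0 < 1 - t := lt_of_le_of_ne ht1 (Ne.symm h0')
  have hG1 := P1.scale (r := t⁻¹) (inv_nonneg.mpr ht0)
  have hG2 := P2.scale (r := (1 - t)⁻¹) (inv_nonneg.mpr ht1)
  have e1 : ((t⁻¹ : ℝ) : ℂ) * φ (z * 1) = 1 := by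
    rw [mul_one, hzt, ← Complex.ofReal_mul, inv_mul_cancel₀ h0, Complex.ofReal_one]
  have e2 : (((1 - t)⁻¹ : ℝ) : ℂ) * φ ((1 - z) * 1) = 1 := by
    rw [mul_one, h1z, ← Complex.ofReal_mul, inv_mul_cancel₀ h0', Complex.ofReal_one]
  have v1 := pure_val (Y := Y) hG1 e1
  have v2 := pure_val (Y := Y) hG2 e2
  have v3 : t * (((t⁻¹ : ℝ) : ℂ) * φ (z * (star Y * Y))).re +
      (1 - t) * ((((1 - t)⁻¹ : ℝ) : ℂ) * φ ((1 - z) * (star Y * Y))).re =
      (φ (star Y * Y)).re := by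
    rw [← hsum (star Y * Y), Complex.add_re, Complex.re_ofReal_mul, Complex.re_ofReal_mul]
    field_simp
  have w1 : ‖Y‖ ^ 2 ≤ (((t⁻¹ : ℝ) : ℂ) * φ (z * (star Y * Y))).re := by
    nlinarith
  have w2 : ‖Y‖ ^ 2 ≤ ((((1 - t)⁻¹ : ℝ) : ℂ) * φ ((1 - z) * (star Y * Y))).re := by
    nlinarith
  have m1 : (fun a => ((t⁻¹ : ℝ) : ℂ) * φ (z * a)) ∈ pureS Y (‖Y‖ ^ 2) :=
    ⟨hG1, e1, fun a => hG1.norm_le e1 a, w1⟩
  have m2 : (fun a => (((1 - t)⁻¹ : ℝ) : ℂ) * φ ((1 - z) * a)) ∈ pureS Y (‖Y‖ ^ 2) :=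
    ⟨hG2, e2, fun a => hG2.norm_le e2 a, w2⟩
  have hseg : φ ∈ openSegment ℝ (fun a => ((t⁻¹ : ℝ) : ℂ) * φ (z * a))
      (fun a => (((1 - t)⁻¹ : ℝ) : ℂ) * φ ((1 - z) * a)) := by
    refine ⟨t, 1 - t, ht0', ht1', by ring, ?_⟩
    funext a
    simp only [Pi.add_apply, Pi.smul_apply, Complex.real_smul]
    rw [← mul_assoc, ← mul_assoc, ← Complex.ofReal_mul, ← Complex.ofReal_mul,
      mul_inv_cancel₀ h0, mul_inv_cancel₀ h0', Complex.ofReal_one, one_mul, one_mul, hsum]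
  have h6 := (hext _ m1 _ m2 hseg).1
  have h7 := congrFun h6 a
  rw [hzt, ← h7, ← mul_assoc, ← Complex.ofReal_mul, mul_inv_cancel₀ h0, Complex.ofReal_one,
    one_mul]

theorem pure_sa {C : Type u} [CStarAlgebra C] {Y : C} {φ : C → ℂ}
    (hφ : φ ∈ Set.extremePoints ℝ (pureS Y (‖Y‖ ^ 2))) {h : C} (hz : ∀ a, h * a = a * h)
    (hh : IsSelfAdjoint h) (a : C) : φ (h * a) = φ h * φ a := by
  obtain ⟨⟨hP, h1, hn, hw⟩, hext⟩ := mem_extremePoints.mp hφ
  obtain ⟨r, hr⟩ : ∃ r : ℝ, r = ‖h‖ + 1 := ⟨_, rfl⟩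
  have hr0 : 0 < r := by
    have := norm_nonneg h
    linarith
  -- `z = (r + h) / (2 r)`
  set k : ℂ := (((√(2 * r))⁻¹ : ℝ) : ℂ) with hk
  have hk2 : star k * k = (((2 * r)⁻¹ : ℝ) : ℂ) := by
    rw [hk, Complex.star_def, Complex.conj_ofReal, ← Complex.ofReal_mul, ← mul_inv,
      Real.mul_self_sqrt (by positivity)]
  have hdec : ∀ g : C, IsSelfAdjoint g → ‖g‖ = ‖h‖ →
      ∃ c : C, (((2 * r)⁻¹ : ℝ) : ℂ) • ((r : ℂ) • (1 : C) + g) = star c * c := by
    intro g hg hgn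
    obtain ⟨c, hc⟩ := PurePF.dec' g hg
    let := CStarAlgebra.spectralOrder C
    have := CStarAlgebra.spectralOrderedRing C
    have h2 : (0:C) ≤ ((r : ℂ) • (1 : C) + g) := by
      have h3 : (0:C) ≤ star c * c := star_mul_self_nonneg c
      have h4 : (0:C) ≤ 1 := zero_le_one
      have h5 : ((r : ℂ) • (1 : C) + g) = (((‖g‖ : ℝ) : ℂ) • (1 : C) + g) + 1 := by
        rw [hr, hgn]
        push_cast
        rw [add_smul, one_smul]
        abel
      rw [h5, hc]
      exact add_nonneg h3 h4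
    obtain ⟨x, hx⟩ := CStarAlgebra.nonneg_iff_eq_star_mul_self.mp h2
    refine ⟨k • x, ?_⟩
    rw [hx, star_smul, smul_mul_smul_comm, hk2]
  set z : C := (((2 * r)⁻¹ : ℝ) : ℂ) • ((r : ℂ) • (1 : C) + h) with hzdef
  have hzc : ∀ a, z * a = a * z := by
    intro a
    have h5 : ((r : ℂ) • (1 : C) + h) * a = a * ((r : ℂ) • (1 : C) + h) := by
      rw [add_mul, mul_add, hz, smul_mul_assoc, one_mul, mul_smul_comm, mul_one]
    rw [hzdef, smul_mul_assoc, mul_smul_comm, h5]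
  have hr2 : (((2 * r)⁻¹ : ℝ) : ℂ) * (r : ℂ) = 1 / 2 := by
    rw [← Complex.ofReal_mul]
    have : (2 * r)⁻¹ * r = 1 / 2 := by field_simp
    rw [this]
    simp
  obtain ⟨c, hc⟩ := hdec h hh rfl
  obtain ⟨d, hd⟩ := hdec (-h) hh.neg (norm_neg h)
  have h1z : 1 - z = star d * d := by
    rw [← hd, hzdef, smul_add, smul_add, smul_smul, hr2, smul_neg]
    have : (1 : C) = (1 / 2 : ℂ) • (1 : C) + (1 / 2 : ℂ) • (1 : C) := by
      rw [← add_smul]; norm_num
    nth_rewrite 1 [this]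
    abel
  have h2 := pure_step hφ hzc hc h1z a
  have h3 : ∀ b, φ (z * b) = (1 / 2) * φ b + (((2 * r)⁻¹ : ℝ) : ℂ) * φ (h * b) := by
    intro b
    rw [hzdef, smul_add, smul_smul, hr2, add_mul, smul_mul_assoc, smul_mul_assoc, one_mul,
      hP.add, hP.smul, hP.smul]
  have h4 : φ z = (1 / 2) + (((2 * r)⁻¹ : ℝ) : ℂ) * φ h := by
    have := h3 1
    rw [mul_one, mul_one, h1, mul_one] at this
    exact this
  rw [h3, h4, add_mul] at h2
  have h5 : (((2 * r)⁻¹ : ℝ) : ℂ) * φ (h * a) = (((2 * r)⁻¹ : ℝ) : ℂ) * (φ h * φ a) := by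
    have := add_left_cancel h2
    rw [this]
    ring
  have h6 : (((2 * r)⁻¹ : ℝ) : ℂ) ≠ 0 := by
    rw [Complex.ofReal_ne_zero]
    positivity
  exact mul_left_cancel₀ h6 h5

theorem prove_pure : G_pure.{u, v} := by
  intro C _ E _ _ _ j hj Y hY
  obtain ⟨φ, hφ⟩ := (pure_compact Y (‖Y‖ ^ 2)).extremePoints_nonempty (pure_nonempty j hj Y hY)
  obtain ⟨⟨hP, h1, hn, hw⟩, hext⟩ := mem_extremePoints.mp hφ
  refine ⟨{ toFun := φ, map_add' := hP.add, map_smul' := fun c a => hP.smul c a }, h1, ?_, ?_, ?_⟩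
  · intro a
    show 0 ≤ φ (star a * a)
    rw [Complex.nonneg_iff]
    exact ⟨hP.re a, (hP.im a).symm⟩
  · show φ (star Y * Y) = ((‖Y‖ ^ 2 : ℝ) : ℂ)
    apply Complex.ext
    · rw [Complex.ofReal_re]
      exact le_antisymm (pure_val hP h1) hw
    · rw [Complex.ofReal_im]
      exact hP.im Y
  · intro z hz a
    show φ (z * a) = φ z * φ a
    have hzs : ∀ a, star z * a = a * star z := by
      intro a
      have := congrArg star (hz (star a))
      rw [star_mul, star_mul, star_star] at this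
      exact this.symm
    set p : C := z + star z with hp
    set q : C := Complex.I • (star z - z) with hq
    have hpsa : IsSelfAdjoint p := by
      rw [IsSelfAdjoint, hp, star_add, star_star, add_comm]
    have hqsa : IsSelfAdjoint q := by
      rw [IsSelfAdjoint, hq, star_smul, star_sub, star_star, Complex.star_def, Complex.conj_I,
        neg_smul, ← smul_neg, neg_sub]
    have hpc : ∀ a, p * a = a * p := by
      intro a
      rw [hp, add_mul, mul_add, hz, hzs]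
    have hqc : ∀ a, q * a = a * q := by
      intro a
      rw [hq, smul_mul_assoc, mul_smul_comm, sub_mul, mul_sub, hz, hzs]
    have hzpq : z = (1 / 2 : ℂ) • p + (Complex.I / 2) • q := by
      rw [hp, hq, smul_smul]
      have : Complex.I / 2 * Complex.I = -(1 / 2) := by
        rw [div_mul_eq_mul_div, Complex.I_mul_I]
        ring
      rw [this, neg_smul, ← smul_neg, ← smul_add]
      have h3 : z + star z + -(star z - z) = (2:ℂ) • z := by
        rw [two_smul]; abel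
      rw [h3, smul_smul]
      norm_num
    have e1 := pure_sa hφ hpc hpsa a
    have e2 := pure_sa hφ hqc hqsa a
    have e3 : φ z = (1 / 2 : ℂ) * φ p + (Complex.I / 2) * φ q := by
      conv_lhs => rw [hzpq]
      rw [hP.add, hP.smul, hP.smul]
    have e4 : φ (z * a) = (1 / 2 : ℂ) * φ (p * a) + (Complex.I / 2) * φ (q * a) := by
      conv_lhs => rw [hzpq]
      rw [add_mul, smul_mul_assoc, smul_mul_assoc, hP.add, hP.smul, hP.smul]
    rw [e4, e1, e2, e3]
    ring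

end H770R2.Kad
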